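import Pool.Agent.H57.LH.Targets2

/-!
# All first-order reducts of structures with local completions: row LNC
-/

set_option autoImplicit false

namespace Pool.Agent.H26.LH

open Pool.Agent.H68.BP Pool.Agent.H58.SF Pool.Agent.H53.GC Pool.Agent.H53.NR
open Pool.Agent.H57.LCI (LocalCompletions Pre Realizes)
open Pool.Agent.H44.KR (Rz LcN)
open Pool.Agent.H57.LH Function

/-- the structure on `X` given by a prescription -/
def stP {ρ : Sig} {X : Type} (p : Pre ρ X) : Str ρ X :=
  fun l z => ∃ y : Fin (ρ.ar l) → Fin p.1, (z = fun i => p.2.1 (y i)) ∧ p.2.2 l y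

theorem stP_iff {ρ : Sig} {X : Type} (p : Pre ρ X) (hp : Injective p.2.1) (l : Fin ρ.m)
    (y : Fin (ρ.ar l) → Fin p.1) : stP p l (fun i => p.2.1 (y i)) ↔ p.2.2 l y := by
  constructor
  · rintro ⟨y', h1, h2⟩
    have h3 : y = y' := funext fun i => hp (congrFun h1 i)
    rw [h3]
    exact h2
  · intro h
    exact ⟨y, rfl, h⟩

theorem pf_LNC : T_LNC := by
  intro V ρ 𝔹 N hne hL r
  classical
  haveI : Finite (Set (Fin N) × Str ρ (Fin N)) := by
    haveI : Finite (Str ρ (Fin N)) := by
      unfold Str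
      infer_instance
    infer_instance
  haveI : Fintype (Set (Fin N) × Str ρ (Fin N)) := Fintype.ofFinite _
  set D := Fintype.card (Set (Fin N) × Str ρ (Fin N)) with hD
  refine ⟨N + D * r + r, fun n P hPr hloc => ?_⟩
  -- the tuples are injective
  have hinj : ∀ p ∈ P, Injective p.2.1 := by
    intro p hp
    obtain ⟨f, hf⟩ := hloc (Finset.univ.image p.2.1) (by
      refine le_trans Finset.card_image_le ?_
      rw [Finset.card_univ, Fintype.card_fin]
      have := hPr p hp
      omega)
    have h1 := hf p hp (fun i => Finset.mem_image_of_mem _ (Finset.mem_univ i))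
    intro i j hij
    exact h1.1 (show f (p.2.1 i) = f (p.2.1 j) by rw [hij])
  obtain ⟨f, hf⟩ := hL (Fin n) P (fun p => Set.range p.1.2.1) (fun p => stP p.1) (by
    intro U hU
    -- an injection of `U` into `Fin N`
    let e : U → Fin N := fun x => Fin.castLE hU (U.equivFin x)
    have he : Injective e := by
      intro x y hxy
      exact U.equivFin.injective (Fin.castLE_injective hU hxy)
    let lab : P → Set (Fin N) × Str ρ (Fin N) := fun p =>
      ({c | ∃ x : U, (x : Fin n) ∈ Set.range p.1.2.1 ∧ e x = c},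
        fun l z => ∃ y : Fin (ρ.ar l) → U, (∀ i, (y i : Fin n) ∈ Set.range p.1.2.1) ∧
          stP p.1 l (fun i => (y i : Fin n)) ∧ z = fun i => e (y i))
    have hlab1 : ∀ (p : P) (x : U), e x ∈ (lab p).1 ↔ (x : Fin n) ∈ Set.range p.1.2.1 := by
      intro p x
      constructor
      · rintro ⟨x', h1, h2⟩
        rw [← he h2]
        exact h1
      · intro h
        exact ⟨x, h, rfl⟩
    have hlab2 : ∀ (p : P) (l : Fin ρ.m) (y : Fin (ρ.ar l) → U),
        (∀ i, (y i : Fin n) ∈ Set.range p.1.2.1) →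
        ((lab p).2 l (fun i => e (y i)) ↔ stP p.1 l (fun i => (y i : Fin n))) := by
      intro p l y hy
      constructor
      · rintro ⟨y', h1, h2, h3⟩
        have h4 : y = y' := funext fun i => he (congrFun h3 i)
        rw [h4]
        exact h2
      · intro h
        exact ⟨y, hy, h, rfl⟩
    -- the chosen prescriptions
    let im : Set (Fin N) × Str ρ (Fin N) → Finset (Fin n) := fun t =>
      if h : ∃ p : P, lab p = t then Finset.univ.image h.choose.1.2.1 else ∅
    have him : ∀ t, (im t).card ≤ r := by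
      intro t
      by_cases h : ∃ p : P, lab p = t
      · simp only [im, dif_pos h]
        refine le_trans Finset.card_image_le ?_
        rw [Finset.card_univ, Fintype.card_fin]
        exact hPr _ h.choose.2
      · simp only [im, dif_neg h, Finset.card_empty]
        exact Nat.zero_le _
    obtain ⟨f, hf⟩ := hloc (U ∪ Finset.univ.biUnion im) (by
      refine le_trans (Finset.card_union_le _ _) ?_
      have h1 : (Finset.univ.biUnion im).card ≤ D * r := by
        refine le_trans Finset.card_biUnion_le ?_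
        refine le_trans (Finset.sum_le_card_nsmul _ _ r fun t _ => him t) ?_
        rw [Finset.card_univ, smul_eq_mul]
      omega)
    refine ⟨f, fun p => ?_⟩
    -- the representative
    have hex : ∃ p' : P, lab p' = lab p := ⟨p, rfl⟩
    obtain ⟨p', hp'lab, hp'⟩ : ∃ p' : P, lab p' = lab p ∧ Realizes 𝔹 f p'.1 := by
      refine ⟨hex.choose, hex.choose_spec, hf _ hex.choose.2 fun i => ?_⟩
      refine Finset.mem_union_right _ (Finset.mem_biUnion.2 ⟨lab p, Finset.mem_univ _, ?_⟩)
      simp only [im, dif_pos hex]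
      exact Finset.mem_image_of_mem _ (Finset.mem_univ i)
    have hrg : ∀ x, x ∈ U → x ∈ Set.range p.1.2.1 → x ∈ Set.range p'.1.2.1 := by
      intro x hxU hx
      have h1 := (hlab1 p ⟨x, hxU⟩).2 hx
      rw [← hp'lab] at h1
      exact (hlab1 p' ⟨x, hxU⟩).1 h1
    refine ⟨?_, ?_⟩
    · rintro x ⟨hx, hxU⟩ y ⟨hy, hyU⟩ hxy
      obtain ⟨i, hi⟩ := hrg x hxU hx
      obtain ⟨j, hj⟩ := hrg y hyU hy
      rw [← hi, ← hj] at hxy
      have h1 : i = j := hp'.1 hxy
      show x = y
      rw [← hi, ← hj, h1]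
    · intro l z hz
      have hz1 : ∀ i, z i ∈ Set.range p.1.2.1 := fun i => (hz i).1
      have hz2 : ∀ i, z i ∈ U := fun i => (hz i).2
      have hz3 : ∀ i, z i ∈ Set.range p'.1.2.1 := fun i => hrg _ (hz2 i) (hz1 i)
      have h1 := hlab2 p l (fun i => ⟨z i, hz2 i⟩) hz1
      have h2 := hlab2 p' l (fun i => ⟨z i, hz2 i⟩) hz3
      rw [hp'lab] at h2
      have h3 : stP p.1 l z ↔ stP p'.1 l z := h1.symm.trans h2
      choose y hy using hz3
      have h4 : z = fun i => p'.1.2.1 (y i) := funext fun i => (hy i).symm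
      show 𝔹 l (fun i => f (z i)) ↔ stP p.1 l (fun i => id (z i))
      show 𝔹 l (fun i => f (z i)) ↔ stP p.1 l z
      rw [h3, h4, stP_iff p'.1 (hinj _ p'.2)]
      exact (hp'.2 l y).symm)
  refine ⟨f, fun p hp => ?_⟩
  obtain ⟨h1, h2⟩ := hf ⟨p, hp⟩
  refine ⟨fun i j hij => ?_, fun l y => ?_⟩
  · exact hinj p hp (h1 _ ⟨i, rfl⟩ _ ⟨j, rfl⟩ hij)
  · have h3 := h2 l (fun i => p.2.1 (y i)) (fun i => ⟨y i, rfl⟩)
    have h4 := stP_iff p (hinj p hp) l y
    exact h4.symm.trans h3.symm

end Pool.Agent.H26.LH
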