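import Pool.Agent.H57.LH.Targets2
import Pool.Agent.H44.KR.Small

/-!
# All first-order reducts of structures with local completions: row OP6
-/

set_option autoImplicit false

namespace Pool.Agent.H26.LH

open Pool.Agent.H68.BP Pool.Agent.H58.SF Pool.Agent.H53.GC Pool.Agent.H53.NR
open Pool.Agent.H57.AR (tp ty)
open Pool.Agent.H57.SO (Pal Col vt Bh Sbn fib sigF)
open Pool.Agent.H57.EQ (Cx)
open Pool.Agent.H44.KR (HB Rlz Pl lr blk Fv kv kd RkI Kd JJ Yc Can Cfg AdT exists_rk inSh reg)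
open Pool.Agent.H57.LH Function

/-- the kind of a block of the region `0` depends only on the types of its entries -/
theorem kv_blk0 {V : Type} {ρ : Sig} {L : ℕ} (𝔹 : Str ρ V) (har : ∀ l, 1 ≤ ρ.ar l)
    (x y : Fin 6 → V) (rk rk' : Pl L × V → ℕ) (h : ∀ c, ty 𝔹 (x c) = ty 𝔹 (y c)) :
    kv 𝔹 rk (Sum.elim (blk0 L x) (blk0 L x)) = kv 𝔹 rk' (Sum.elim (blk0 L y) (blk0 L y)) := by
  have hb : ∀ x : Fin 6 → V, (Sum.elim (blk0 L x) (blk0 L x)) =
      fun j : JJ => ((Sum.inl (Sum.elim id id j) : Pl L), x (Sum.elim id id j)) := by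
    intro x
    funext j
    rcases j with j | j <;> rfl
  rw [hb x, hb y]
  unfold kv kd
  refine Prod.ext rfl (Prod.ext ?_ (Prod.ext ?_ ?_))
  · funext i j
    apply propext
    show ((Sum.inl (Sum.elim id id i) : Pl L), x (Sum.elim id id i)) =
      (Sum.inl (Sum.elim id id j), x (Sum.elim id id j)) ↔
      ((Sum.inl (Sum.elim id id i) : Pl L), y (Sum.elim id id i)) =
      (Sum.inl (Sum.elim id id j), y (Sum.elim id id j))
    have key : ∀ x : Fin 6 → V, ((Sum.inl (Sum.elim id id i) : Pl L), x (Sum.elim id id i)) =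
        (Sum.inl (Sum.elim id id j), x (Sum.elim id id j)) ↔
        (Sum.elim id id i : Fin 6) = Sum.elim id id j := by
      intro x
      constructor
      · intro h
        exact Sum.inl.inj (Prod.ext_iff.1 h).1
      · intro h
        rw [h]
    rw [key x, key y]
  · funext i j
    apply propext
    constructor
    · rintro ⟨h1, h2⟩
      have h3 : (Sum.elim id id i : Fin 6) = Sum.elim id id j := Sum.inl.inj h1
      exfalso
      have h4 : rk ((Sum.inl (Sum.elim id id i) : Pl L), x (Sum.elim id id i)) =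
        rk (Sum.inl (Sum.elim id id j), x (Sum.elim id id j)) := by rw [h3]
      exact absurd h2 (by rw [h4]; exact lt_irrefl _)
    · rintro ⟨h1, h2⟩
      have h3 : (Sum.elim id id i : Fin 6) = Sum.elim id id j := Sum.inl.inj h1
      exfalso
      have h4 : rk' ((Sum.inl (Sum.elim id id i) : Pl L), y (Sum.elim id id i)) =
        rk' (Sum.inl (Sum.elim id id j), y (Sum.elim id id j)) := by rw [h3]
      exact absurd h2 (by rw [h4]; exact lt_irrefl _)
  · funext l z
    apply propext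
    have key : (∃ Z, ∀ i, inSh Z (Sum.inl (Sum.elim id id (z i)) : Pl L)) →
        ∃ c0 : Fin 6, ∀ i, (Sum.elim id id (z i) : Fin 6) = c0 := by
      rintro ⟨Z, hZ⟩
      rcases Z with c0 | d
      · exact ⟨c0, fun i => hZ i⟩
      · exact absurd (hZ ⟨0, har l⟩) (fun h => h)
    constructor
    · rintro ⟨h1, h2⟩
      refine ⟨h1, ?_⟩
      obtain ⟨c0, hc0⟩ := key h1
      have h3 : (fun i => x (Sum.elim id id (z i))) = fun _ => x c0 := by
        funext i; rw [hc0 i]
      have h4 : (fun i => y (Sum.elim id id (z i))) = fun _ => y c0 := by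
        funext i; rw [hc0 i]
      have h5 : 𝔹 l (fun i => x (Sum.elim id id (z i))) := h2
      show 𝔹 l (fun i => y (Sum.elim id id (z i)))
      rw [h4]
      rw [h3] at h5
      have h6 : ty 𝔹 (x c0) l = ty 𝔹 (y c0) l := by rw [h c0]
      exact (iff_of_eq h6).1 h5
    · rintro ⟨h1, h2⟩
      refine ⟨h1, ?_⟩
      obtain ⟨c0, hc0⟩ := key h1
      have h3 : (fun i => x (Sum.elim id id (z i))) = fun _ => x c0 := by
        funext i; rw [hc0 i]
      have h4 : (fun i => y (Sum.elim id id (z i))) = fun _ => y c0 := by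
        funext i; rw [hc0 i]
      have h5 : 𝔹 l (fun i => y (Sum.elim id id (z i))) := h2
      show 𝔹 l (fun i => x (Sum.elim id id (z i)))
      rw [h3]
      rw [h4] at h5
      have h6 : ty 𝔹 (x c0) l = ty 𝔹 (y c0) l := by rw [h c0]
      exact (iff_of_eq h6).2 h5

/-- blocks of the region `0` are configurations -/
theorem cfg_blk0 {V W : Type} {L : ℕ} (G : Fin 6 → W → V) (rk : Pl L × V → ℕ)
    (hrk : RkI rk (fun q : W × Fin 6 => blk0 L (fun c => G c q.1) q.2)) :
    Cfg 0 (fun w => blk0 L (fun c => G c w)) rk where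
  pos := fun _ _ => rfl
  adj := fun _ _ _ => by
    show Pool.Agent.H53.GM.Adj none none
    unfold Pool.Agent.H53.GM.Adj
    simp
  inj := by
    intro Z w w' c c' h1 h2 _
    rcases Z with c0 | d
    · have e1 : c = c0 := h1
      have e2 : c' = c0 := h2
      rw [e1, e2]
      rfl
    · exact absurd h1 (fun h => h)
  rk := hrk

theorem pf_OP6 : T_OP6 := by
  intro V σ ρ 𝔸 𝔹 L Φ hB hC
  have hval : ∀ (W : Type) [Finite W] (G : Fin 6 → W → V) (rk : Pl L × V → ℕ),
      RkI rk (fun q : W × Fin 6 => blk0 L (fun c => G c q.1) q.2) →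
      ∃ ψ : W → V, Cx 𝔸 G ψ ∧ ∀ w, ty 𝔹 (ψ w) =
        (Fv 𝔹 Φ rk (blk0 L (fun c => G c w)) (blk0 L (fun c => G c w))).2.1 := by
    intro W _ G rk hrk
    obtain ⟨ψ, h1, h2⟩ := hC.out 0 W (fun w => blk0 L (fun c => G c w)) rk (cfg_blk0 G rk hrk)
    refine ⟨ψ, h1, fun w => ?_⟩
    have h3 := h2 w w (by
      intro i j
      have : ∀ i : JJ, reg ((Sum.elim (blk0 L (fun c => G c w)) (blk0 L (fun c => G c w)) i).1) =
          none := by
        intro i
        rcases i with i | i <;> rfl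
      rw [this i, this j]
      unfold Pool.Agent.H53.GM.Adj
      simp)
    have h4 := congrArg (fun y : Yc ρ => y.2.1) h3
    exact h4
  choose x hx using fun (t : Fin 6 → SS 𝔹) (c : Fin 6) => (t c).2
  choose rk hrk using fun (t : Fin 6 → SS 𝔹) =>
    exists_rk (fun q : Unit × Fin 6 => (blk0 L (x t) q.2 : Pl L × V))
  have hr : ∀ t : Fin 6 → SS 𝔹,
      (Fv 𝔹 Φ (rk t) (blk0 L (x t)) (blk0 L (x t))).2.1 ∈ Rlz 𝔹 := by
    intro t
    obtain ⟨ψ, -, h2⟩ := hval Unit (fun c _ => x t c) (rk t) (hrk t)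
    exact ⟨ψ (), h2 ()⟩
  have hv : IsV6 𝔹 Φ (fun t => ⟨(Fv 𝔹 Φ (rk t) (blk0 L (x t)) (blk0 L (x t))).2.1, hr t⟩) := by
    intro y rk' _
    show (Fv 𝔹 Φ rk' (blk0 L y) (blk0 L y)).2.1 =
      (Fv 𝔹 Φ (rk (fun c => vs 𝔹 (y c))) (blk0 L (x fun c => vs 𝔹 (y c)))
        (blk0 L (x fun c => vs 𝔹 (y c)))).2.1
    unfold Fv
    rw [kv_blk0 𝔹 hB.ar y (x fun c => vs 𝔹 (y c)) rk' (rk fun c => vs 𝔹 (y c))
      (fun c => (hx (fun c => vs 𝔹 (y c)) c).symm)]
  refine ⟨_, hv, ?_⟩
  intro W _ G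
  obtain ⟨rk', hrk'⟩ := exists_rk (fun q : W × Fin 6 => (blk0 L (fun c => G c q.1) q.2 : Pl L × V))
  obtain ⟨ψ, h1, h2⟩ := hval W G rk' hrk'
  refine ⟨ψ, h1, fun w => ?_⟩
  rw [vt_c0]
  have h3 := hv (fun c => G c w) rk' (fun i j hij => hrk' (w, i) (w, j) hij)
  apply Subtype.ext
  show ty 𝔹 (ψ w) = _
  rw [h2 w, h3]
  have h4 : (fun i => vt (P0 𝔹) (c0 𝔹) (G i w)) = fun c => vs 𝔹 (G c w) :=
    funext fun c => vt_c0 𝔹 (G c w)
  rw [h4]

end Pool.Agent.H26.LH
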